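import Mathlib
import Pool.Agent.Lib.MP_137890_nt.Triangle

set_option autoImplicit false

namespace Pool.Agent.Lib.MP_137890_nt

/-- Membership in the lattice spanned by `(l, -y)` and `(-w, h)`. -/
def InL (l y w h u v : ℝ) : Prop :=
  ∃ a b : ℤ, u = a * l - b * w ∧ v = -(a * y) + b * h

/-- A reduced basis. -/
structure Red (l y w h : ℝ) : Prop where
  w0 : 0 ≤ w
  y0 : 0 ≤ y
  wl : w ≤ l
  yh : y ≤ h
  yl : y ≤ l
  wh : w ≤ h

lemma Cov.of_inL {R l y w h l' y' w' h' : ℝ} (H : Cov R l y w h)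
    (hL : ∀ u v, InL l y w h u v → InL l' y' w' h' u v) : Cov R l' y' w' h' := by
  intro u v
  obtain ⟨a, b, h1, h2, h3⟩ := H u v
  obtain ⟨a', b', e1, e2⟩ := hL _ _ ⟨a, b, rfl, rfl⟩
  exact ⟨a', b', by rw [← e1]; exact h1, by rw [← e2]; exact h2, by rw [← e1, ← e2]; exact h3⟩

lemma reduce : ∀ (n : ℕ) (l y w h : ℝ), 0 ≤ y → 0 ≤ w → y ≤ l → 1 ≤ l → w + 1 ≤ h → y + w ≤ n →
    ∃ l' y' w' h' : ℝ, Red l' y' w' h' ∧ l' * h' - w' * y' = l * h - w * y ∧
      ∀ u v, InL l' y' w' h' u v ↔ InL l y w h u v := by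
  intro n
  induction n with
  | zero =>
    intro l y w h hy hw hyl hl hh hn
    have hy0 : y = 0 := by simp at hn; linarith
    have hw0 : w = 0 := by simp at hn; linarith
    exact ⟨l, y, w, h, ⟨hw, hy, by linarith, by linarith, hyl, by linarith⟩, rfl,
      fun _ _ => Iff.rfl⟩
  | succ n ih =>
    intro l y w h hy hw hyl hl hh hn
    push_cast at hn
    by_cases h1 : y ≤ h
    · by_cases h2 : w ≤ l
      · exact ⟨l, y, w, h, ⟨hw, hy, h2, h1, hyl, by linarith⟩, rfl, fun _ _ => Iff.rfl⟩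
      · push Not at h2
        obtain ⟨l', y', w', h', hR, hd, hL⟩ :=
          ih l y (w - l) (h - y) hy (by linarith) hyl hl (by linarith) (by linarith)
        refine ⟨l', y', w', h', hR, by rw [hd]; ring, fun u v => (hL u v).trans ⟨?_, ?_⟩⟩
        · rintro ⟨a, b, e1, e2⟩
          exact ⟨a + b, b, by push_cast; linarith, by push_cast; linarith⟩
        · rintro ⟨a, b, e1, e2⟩
          exact ⟨a - b, b, by push_cast; linarith, by push_cast; linarith⟩
    · push Not at h1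
      obtain ⟨l', y', w', h', hR, hd, hL⟩ :=
        ih (l - w) (y - h) w h (by linarith) hw (by linarith) (by linarith) hh (by linarith)
      refine ⟨l', y', w', h', hR, by rw [hd]; ring, fun u v => (hL u v).trans ⟨?_, ?_⟩⟩
      · rintro ⟨a, b, e1, e2⟩
        exact ⟨a, b + a, by push_cast; linarith, by push_cast; linarith⟩
      · rintro ⟨a, b, e1, e2⟩
        exact ⟨a, b - a, by push_cast; linarith, by push_cast; linarith⟩

/-- A low point of the central region has no other low lattice translate in the quadrant. -/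
lemma Red.uniq {l y w h u v p q : ℝ} (H : Red l y w h) (hu : u < w) (hv : v < y)
    (hs : u + v < l + h - w - y) (hL : InL l y w h p q) (hp : 0 ≤ u + p) (hq : 0 ≤ v + q) :
    p + q = 0 ∨ l + h - w - y ≤ p + q := by
  obtain ⟨w0, y0, wl, yh, yl, wh⟩ := H
  obtain ⟨a, b, rfl, rfl⟩ := hL
  have l0 : 0 ≤ l := w0.trans wl
  have h0 : 0 ≤ h := y0.trans yh
  rcases lt_trichotomy a 0 with ha | ha | ha
  · exfalso
    have ha' : (a : ℝ) ≤ -1 := by exact_mod_cast (by omega : a ≤ -1)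
    rcases lt_trichotomy a b with hab | hab | hab
    · have hb : (a : ℝ) + 1 ≤ b := by exact_mod_cast (by omega : a + 1 ≤ b)
      have e1 : 0 ≤ ((b : ℝ) - a - 1) * w := mul_nonneg (by linarith) w0
      have e2 : 0 ≤ (-(a : ℝ)) * (l - w) := mul_nonneg (by linarith) (by linarith)
      nlinarith
    · subst hab
      have e1 : 0 ≤ (-(a : ℝ) - 1) * (l - w) := mul_nonneg (by linarith) (by linarith)
      have e2 : 0 ≤ (-(a : ℝ) - 1) * (h - y) := mul_nonneg (by linarith) (by linarith)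
      nlinarith
    · have hb : (b : ℝ) + 1 ≤ a := by exact_mod_cast (by omega : b + 1 ≤ a)
      have e1 : 0 ≤ ((a : ℝ) - b - 1) * h := mul_nonneg (by linarith) h0
      have e2 : 0 ≤ (-(a : ℝ)) * (h - y) := mul_nonneg (by linarith) (by linarith)
      nlinarith
  · subst ha
    rcases lt_trichotomy b 0 with hb | hb | hb
    · exfalso
      have hb' : (b : ℝ) ≤ -1 := by exact_mod_cast (by omega : b ≤ -1)
      have e1 : 0 ≤ (-(b : ℝ) - 1) * h := mul_nonneg (by linarith) h0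
      simp only [Int.cast_zero, zero_mul, neg_zero, zero_add] at hq
      nlinarith
    · subst hb
      left
      simp
    · exfalso
      have hb' : (1 : ℝ) ≤ b := by exact_mod_cast (by omega : 1 ≤ b)
      have e1 : 0 ≤ ((b : ℝ) - 1) * w := mul_nonneg (by linarith) w0
      simp only [Int.cast_zero, zero_mul, zero_sub] at hp
      nlinarith
  · have ha' : (1 : ℝ) ≤ a := by exact_mod_cast (by omega : 1 ≤ a)
    rcases le_or_gt b 0 with hb | hb
    · exfalso
      have hb' : (b : ℝ) ≤ 0 := by exact_mod_cast hb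
      have e1 : 0 ≤ (-(b : ℝ)) * h := mul_nonneg (by linarith) h0
      have e2 : 0 ≤ ((a : ℝ) - 1) * y := mul_nonneg (by linarith) y0
      nlinarith
    · right
      have hb' : (1 : ℝ) ≤ b := by exact_mod_cast (by omega : 1 ≤ b)
      have e1 : 0 ≤ ((a : ℝ) - 1) * (l - y) := mul_nonneg (by linarith) (by linarith)
      have e2 : 0 ≤ ((b : ℝ) - 1) * (h - w) := mul_nonneg (by linarith) (by linarith)
      nlinarith

/-- Arcs `j X + [0, j + c]`, `j ≤ r`, that cover `ℝ / G ℤ` give a lattice covering by a triangle. -/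
lemma cov_of_arcs (X G c : ℝ) (r : ℕ) (k : ℤ)
    (H : ∀ t : ℝ, ∃ j : ℕ, j ≤ r ∧ ∃ m : ℤ, 0 ≤ t - j * X - m * G ∧ t - j * X - m * G ≤ j + c) :
    Cov (r + 1 + c) G G (X - k * G) (X - k * G + 1) := by
  intro u v
  set j0 : ℤ := ⌊u + v - c⌋ with hj0
  have e1 : (j0 : ℝ) ≤ u + v - c := Int.floor_le _
  have e2 : u + v - c < j0 + 1 := Int.lt_floor_add_one _
  obtain ⟨j, hj, m, f1, f2⟩ := H (j0 * X + u)
  have hj' : (j : ℝ) ≤ r := by exact_mod_cast hj
  refine ⟨(j - j0) * k + m, j0 - j, ?_, ?_, ?_⟩ <;> push_cast <;> nlinarith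

/-- The shape of a nearly extremal covering. -/
lemma shape {R S a b G : ℝ} (hR : 0 < R) (hS0 : 0 ≤ S) (hS : S ≤ R) (ha : 0 ≤ a) (hab : a ≤ b)
    (hG : 4 * G ≤ (S + a) ^ 2 - 4 * (a * b)) (hlow : 33 / 100 * R ^ 2 ≤ G) :
    3 * G ≤ S ^ 2 - 3 * (a * (b - a)) ∧ 99 / 100 * R ≤ S ∧ R / 4 ≤ a ∧ b ≤ 43 / 100 * R := by
  have h1 : 3 * G ≤ S ^ 2 - 3 * (a * (b - a)) := by nlinarith [sq_nonneg (S - 3 * a)]
  have h0 : 0 ≤ a * (b - a) := mul_nonneg ha (by linarith)
  have hSR : S ^ 2 ≤ R ^ 2 := pow_le_pow_left₀ hS0 hS 2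
  have hSa : (S + a) ^ 2 ≤ (R + a) ^ 2 := pow_le_pow_left₀ (by linarith) (by linarith) 2
  have h2 : 99 / 100 * R ≤ S := by
    by_contra hc
    push Not at hc
    nlinarith
  have h3 : R / 4 ≤ a := by
    by_contra hc
    push Not at hc
    nlinarith [mul_pos (sub_pos.2 hc) (show 0 < 5 / 12 * R - a by linarith)]
  have h4 : a ≤ 41 / 100 * R := by
    by_contra hc
    push Not at hc
    nlinarith [mul_pos (sub_pos.2 hc) (show 0 < a - 77 / 300 * R by linarith)]
  refine ⟨h1, h2, h3, ?_⟩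
  by_contra hc
  push Not at hc
  have : R / 4 * (R / 50) ≤ a * (b - a) :=
    mul_le_mul h3 (by linarith) (by linarith) ha
  nlinarith

end Pool.Agent.Lib.MP_137890_nt
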