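import Mathlib
import Pool.Agent.Lib.MP_137890_nt.Basic
import Pool.Agent.Lib.MP_137890_nt.Ex.A

set_option autoImplicit false

open Pointwise

namespace Pool.Agent.Lib.MP_137890_nt

/-- Multiplication by `φ` sends `A` into the arc `[X, X + 1]` of `ℝ / G ℤ`. -/
def Nar (A : Set ℤ) (φ X G : ℝ) : Prop :=
  ∀ a ∈ A, ∃ m : ℤ, 0 ≤ a * φ - X - m * G ∧ a * φ - X - m * G ≤ 1

lemma Nar.sum {A : Set ℤ} {φ X G : ℝ} (h : Nar A φ X G) : ∀ j : ℕ, ∀ n ∈ j • A,
    ∃ m : ℤ, 0 ≤ n * φ - j * X - m * G ∧ n * φ - j * X - m * G ≤ j := by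
  intro j
  induction j with
  | zero =>
    intro n hn
    simp at hn
    subst hn
    exact ⟨0, by simp, by simp⟩
  | succ j ih =>
    intro n hn
    obtain ⟨u, hu, b, hb, rfl⟩ := mem_succ_nsmul.mp hn
    obtain ⟨m, h1, h2⟩ := ih u hu
    obtain ⟨m', h3, h4⟩ := h b hb
    refine ⟨m + m', ?_, ?_⟩ <;> push_cast <;> linarith

lemma Setup.arcs {A : Set ℤ} {r : ℕ} {a0 N0 : ℤ} (S : Setup A r a0 N0) {φ X G c : ℝ}
    (hG : 0 < G) (h : Nar A φ X G) {d k : ℤ} (hs0 : 0 < d * φ - k * G) (hsc : d * φ - k * G ≤ c)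
    (t : ℝ) : ∃ j : ℕ, j ≤ r ∧ ∃ m : ℤ, 0 ≤ t - j * X - m * G ∧ t - j * X - m * G ≤ j + c := by
  set s := d * φ - k * G with hs
  set M : ℕ := ⌈G / s⌉₊ with hM
  set N : ℤ := N0 + |d| * M with hN
  set q : ℤ := ⌊(t - N * φ) / G⌋ with hq
  have hq1 : (q : ℝ) * G ≤ t - N * φ := by
    have := Int.floor_le ((t - N * φ) / G)
    rwa [le_div_iff₀ hG] at this
  have hq2 : t - N * φ < (q + 1) * G := by
    have := Int.lt_floor_add_one ((t - N * φ) / G)
    rwa [div_lt_iff₀ hG] at this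
  set y := t - N * φ - q * G with hy
  have hy0 : 0 ≤ y := by linarith
  have hy1 : y ≤ G := by linarith
  set i : ℕ := ⌊y / s⌋₊ with hi
  have hi1 : (i : ℝ) ≤ y / s := Nat.floor_le (div_nonneg hy0 hs0.le)
  have hi2 : y / s < i + 1 := Nat.lt_floor_add_one _
  have hiM : i ≤ M := by
    have : (i : ℝ) ≤ M :=
      hi1.trans (le_trans (div_le_div_of_nonneg_right hy1 hs0.le) (Nat.le_ceil _))
    exact_mod_cast this
  have hn : N0 ≤ N + i * d := by
    have h1 : (i : ℤ) ≤ M := by exact_mod_cast hiM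
    have h2 : -|d| ≤ d := neg_abs_le d
    have h3 : 0 ≤ |d| := abs_nonneg d
    have h4 : (0 : ℤ) ≤ i := Int.natCast_nonneg i
    rw [hN]
    nlinarith
  obtain ⟨j, hj, hmem⟩ := S.cov _ hn
  obtain ⟨m, h1, h2⟩ := h.sum j _ hmem
  rw [le_div_iff₀ hs0] at hi1
  rw [div_lt_iff₀ hs0] at hi2
  have e : ((N : ℝ) + i * d) * φ = N * φ + i * s + i * k * G := by rw [hs]; ring
  push_cast at h1 h2
  rw [e] at h1 h2
  refine ⟨j, hj, m + q - i * k, ?_, ?_⟩ <;> push_cast <;> nlinarith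

/-- The lattice of relations, its reduced basis, and the saturated level. -/
lemma Setup.geo {A : Set ℤ} {r : ℕ} {a0 N0 : ℤ} (S : Setup A r a0 N0) {φ X G c : ℝ}
    (hG : 1 ≤ G) (h : Nar A φ X G) {d k : ℤ} (hs0 : 0 < d * φ - k * G) (hsc : d * φ - k * G ≤ c) :
    ∃ l y w h' : ℝ, Red l y w h' ∧ l * h' - w * y = G ∧ l + h' - y ≤ r + 1 + c ∧
      l + h' - w ≤ r + 1 + c ∧
      (∀ u v, InL l y w h' u v ↔ ∃ m j : ℤ, u = m * G - j * X ∧ u + v = j) ∧
      ∀ j0 : ℕ, (r : ℝ) < j0 + (l + h' - w - y) → (j0 : ℝ) < l + h' - w - y → ∀ n : ℤ, N0 ≤ n →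
        ∀ m : ℤ, n * φ - j0 * X - m * G < w → j0 - (n * φ - j0 * X - m * G) < y → n ∈ j0 • A := by
  have hG0 : 0 < G := by linarith
  set q : ℤ := ⌊X / G⌋ with hq
  have hq1 : (q : ℝ) * G ≤ X := by
    have := Int.floor_le (X / G)
    rwa [le_div_iff₀ hG0] at this
  have HC := cov_of_arcs X G c r q (S.arcs hG0 h hs0 hsc)
  obtain ⟨n, hn⟩ := exists_nat_ge (G + (X - q * G))
  obtain ⟨l, y, w, h', hR, hd, hL⟩ := reduce n G G (X - q * G) (X - q * G + 1) hG0.le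
    (by linarith) le_rfl hG le_rfl hn
  have HC' : Cov (r + 1 + c) l y w h' := HC.of_inL fun u v huv => (hL u v).2 huv
  have hL' : ∀ u v, InL l y w h' u v ↔ ∃ m j : ℤ, u = m * G - j * X ∧ u + v = j := by
    intro u v
    refine (hL u v).trans ⟨?_, ?_⟩
    · rintro ⟨a, b, e1, e2⟩
      exact ⟨a + b * q, b, by push_cast; linarith, by linarith⟩
    · rintro ⟨m, j, e1, e2⟩
      exact ⟨m - j * q, j, by push_cast; linarith, by push_cast; linarith⟩
  refine ⟨l, y, w, h', hR, by rw [hd]; ring, HC'.corner hR.w0 hR.y0 hR.wl hR.yh hR.yl hR.wh, ?_,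
    hL', ?_⟩
  · have := HC'.swap.corner hR.y0 hR.w0 hR.yh hR.wl hR.wh hR.yl
    linarith
  · intro j0 h1 h2 n hn m hu hv
    obtain ⟨j, hj, hmem⟩ := S.cov n hn
    obtain ⟨m', f1, f2⟩ := h.sum j n hmem
    have hj' : (j : ℝ) ≤ r := by exact_mod_cast hj
    have hin : InL l y w h' (((m - m' : ℤ) : ℝ) * G - ((j - j0 : ℤ) : ℝ) * X)
        (((j - j0 : ℤ) : ℝ) - (((m - m' : ℤ) : ℝ) * G - ((j - j0 : ℤ) : ℝ) * X)) :=
      (hL' _ _).2 ⟨m - m', j - j0, rfl, by ring⟩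
    rcases hR.uniq hu hv (by linarith) hin (by push_cast; linarith) (by push_cast; linarith)
      with e | e
    · push_cast at e
      have : (j : ℝ) = j0 := by linarith
      have : j = j0 := by exact_mod_cast this
      rwa [← this]
    · push_cast at e
      linarith

/-- Sweeping a saturated arc round the circle. -/
lemma sweep2 {A : Set ℤ} {N0 : ℤ} {φ X G α β p s : ℝ} (hG : 0 < G) {a b ma mb : ℤ} (ha : a ∈ A)
    (hb : b ∈ A) (ha0 : 0 ≤ a) (hb0 : 0 ≤ b) (hpa : a * φ - X - ma * G = p)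
    (hpb : b * φ - X - mb * G = p + s) (hs : 0 < s) (hlen : s < β - α) {M j0 : ℕ}
    (hM : G < β - α + M * s)
    (hsat : ∀ n : ℤ, N0 ≤ n → ∀ m : ℤ, α < n * φ - j0 * X - m * G → n * φ - j0 * X - m * G < β →
      n ∈ j0 • A) : ∃ N1 : ℤ, ∀ n, N1 ≤ n → n ∈ (j0 + M) • A := by
  refine ⟨N0 + M * (a + b), fun n hn => ?_⟩
  set T := n * φ - (j0 + M) * X - M * p with hT
  set m : ℤ := ⌈(T - α) / G⌉ - 1 with hm
  have m1 : T - α ≤ (m + 1) * G := by
    have := Int.le_ceil ((T - α) / G)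
    rw [div_le_iff₀ hG] at this
    rw [hm]; push_cast; linarith
  have m2 : m * G < T - α := by
    have := Int.ceil_lt_add_one ((T - α) / G)
    have h2 : (m : ℝ) < (T - α) / G := by rw [hm]; push_cast; linarith
    rwa [lt_div_iff₀ hG] at h2
  obtain ⟨i, hi, i1, i2⟩ : ∃ i : ℕ, i ≤ M ∧ α < T - m * G - i * s ∧ T - m * G - i * s < β := by
    by_cases hc : T - m * G < β
    · exact ⟨0, Nat.zero_le _, by simp; linarith, by simpa using hc⟩
    · push Not at hc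
      have h0 : 0 ≤ (T - m * G - β) / s := div_nonneg (by linarith) hs.le
      have f1 := Nat.floor_le h0
      have f2 := Nat.lt_floor_add_one ((T - m * G - β) / s)
      have f3 : (T - m * G - β) / s < M := by rw [div_lt_iff₀ hs]; linarith
      rw [le_div_iff₀ hs] at f1
      rw [div_lt_iff₀ hs] at f2
      refine ⟨⌊(T - m * G - β) / s⌋₊ + 1, (Nat.floor_lt h0).2 f3, ?_, ?_⟩ <;> push_cast <;> linarith
  have hi' : (i : ℤ) ≤ M := by exact_mod_cast hi
  have hi0 : (0 : ℤ) ≤ i := Int.natCast_nonneg i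
  have key : ((n - i * b - (M - i) * a : ℤ) : ℝ) * φ - j0 * X -
      ((m - i * mb - (M - i) * ma : ℤ) : ℝ) * G = T - m * G - i * s := by
    push_cast
    rw [hT]
    linear_combination (-(M - i : ℝ)) * hpa - (i : ℝ) * hpb
  have h1 := hsat (n - i * b - (M - i) * a) (by nlinarith) (m - i * mb - (M - i) * ma)
    (by rw [key]; exact i1) (by rw [key]; exact i2)
  have h2 := shift_mem_nsmul ha hi (mul_mem_nsmul hb i)
  have h3 := add_mem_add_nsmul h1 h2
  convert h3 using 1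
  rw [Nat.cast_sub hi]
  ring

end Pool.Agent.Lib.MP_137890_nt
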