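import Mathlib
import Pool.Agent.Lib.MP_137890_nt.Ex.B

set_option autoImplicit false

open Pointwise

namespace Pool.Agent.Lib.MP_137890_nt

lemma Red.shape' {l y w h R G : ℝ} (H : Red l y w h) (hd : l * h - w * y = G) (h1 : l + h - y ≤ R)
    (h2 : l + h - w ≤ R) (hR : 0 < R) (hlow : 33 / 100 * R ^ 2 ≤ G) :
    l + h - min w y ≤ R ∧
    3 * G ≤ (l + h - min w y) ^ 2 - 3 * (min w y * (max w y - min w y)) ∧
      99 / 100 * R ≤ l + h - min w y ∧ R / 4 ≤ min w y ∧ max w y ≤ 43 / 100 * R := by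
  obtain ⟨w0, y0, wl, yh, yl, wh⟩ := H
  have hS : l + h - min w y ≤ R := by
    rcases le_total w y with c | c
    · rw [min_eq_left c]; exact h2
    · rw [min_eq_right c]; exact h1
  refine ⟨hS, shape hR ?_ hS (le_min w0 y0) (min_le_max) ?_ hlow⟩
  · have := min_le_left w y
    linarith
  · rw [min_mul_max]
    nlinarith [sq_nonneg (l - h)]

/-- The character takes small nonzero values: a linear term is lost. -/
lemma Setup.caseB {A : Set ℤ} {r : ℕ} {a0 N0 : ℤ} (S : Setup A r a0 N0) (hr : 1000 ≤ r)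
    {φ X G : ℝ} (h : Nar A φ X G) (hG : 33 / 100 * ((r : ℝ) + 2) ^ 2 ≤ G) {d k : ℤ}
    (hs0 : 0 < d * φ - k * G) (hsc : d * φ - k * G ≤ 1 / 2)
    (ht : ∀ η : ℝ, 0 < η → ∃ a ∈ A, ∃ b ∈ A, ∃ ma mb : ℤ, ∃ p s : ℝ, a * φ - X - ma * G = p ∧
      b * φ - X - mb * G = p + s ∧ 1 - η < s ∧ s ≤ 1) :
    ∃ K : ℕ, 3 * K ≤ r * (r + 4) ∧ ∃ N1 : ℤ, ∀ n, N1 ≤ n → n ∈ K • A := by
  have hr' : (1000 : ℝ) ≤ r := by exact_mod_cast hr
  have hG1 : (r : ℝ) + 2 ≤ G := by nlinarith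
  obtain ⟨l, y, w, h', hR, hd, c1, c2, -, hsat⟩ := S.geo (by linarith) h hs0 hsc
  obtain ⟨s0, s1, s2, s3, s4⟩ := hR.shape' hd c1 c2 (by linarith) (by nlinarith)
  have hab : min w y + max w y = w + y := min_add_max w y
  have hle : min w y ≤ max w y := min_le_max
  set a := min w y
  set b := max w y
  have hD0 : 0 ≤ (r : ℝ) - (l + h' - w - y) := by linarith
  set j0 : ℕ := ⌊(r : ℝ) - (l + h' - w - y)⌋₊ + 1 with hj0
  have j1 : (r : ℝ) - (l + h' - w - y) < j0 := by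
    rw [hj0]; push_cast; exact Nat.lt_floor_add_one _
  have j2 : (j0 : ℝ) ≤ r - (l + h' - w - y) + 1 := by
    rw [hj0]; push_cast; linarith [Nat.floor_le hD0]
  set M : ℕ := ⌈G - (w - (j0 - y))⌉₊ + 1 with hM
  have M1 : G - (w - (j0 - y)) + 1 ≤ M := by
    rw [hM]; push_cast; linarith [Nat.le_ceil (G - (w - (j0 - y)))]
  have M2 : (M : ℝ) ≤ G - (w - (j0 - y)) + 2 := by
    have h0 : 0 ≤ G - (w - (j0 - y)) := by
      have : (0 : ℝ) ≤ j0 := Nat.cast_nonneg _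
      linarith
    rw [hM]; push_cast; linarith [Nat.ceil_lt_add_one h0]
  have M0 : (1 : ℝ) ≤ M := by
    have : 1 ≤ M := by omega
    exact_mod_cast this
  obtain ⟨a1, ha1, b1, hb1, ma, mb, p, s, e1, e2, e3, e4⟩ := ht (1 / M) (by positivity)
  have e5 : (M : ℝ) - 1 < M * s := by
    have := mul_lt_mul_of_pos_left e3 (show (0 : ℝ) < M by linarith)
    rwa [mul_sub, mul_one, mul_one_div_cancel (by linarith)] at this
  have e6 : 0 < s := by
    by_contra hc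
    push Not at hc
    nlinarith
  refine ⟨j0 + M, ?_, sweep2 (N0 := N0) (α := j0 - y) (β := w) (by linarith) ha1 hb1
    (S.nonneg _ ha1) (S.nonneg _ hb1) e1 e2 e6 (by linarith) (by linarith)
    fun n hn m f1 f2 => hsat j0 (by linarith) (by linarith) n hn m f2 (by linarith)⟩
  have : (3 : ℝ) * ((j0 : ℝ) + M) ≤ r * (r + 4) := by
    have t1 : 0 ≤ (a - 1) * (b - a) := mul_nonneg (by linarith) (by linarith)
    have t2 : 0 ≤ ((r : ℝ) + 1 + 1 / 2 - (l + h' - a)) * (r + 1 + 1 / 2 + (l + h' - a) - 6) :=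
      mul_nonneg (by linarith) (by linarith)
    nlinarith
  exact_mod_cast this

lemma arithA (R S a b G : ℤ) (hR : 1000 ≤ R) (h1 : S ≤ R) (h2 : 99 * R ≤ 100 * S) (h3 : R ≤ 4 * a)
    (h4 : a ≤ b) (h5 : 3 * G ≤ S ^ 2 - 3 * (a * (b - a))) (hne : S = R → a = b → 3 * G ≠ R ^ 2) :
    3 * (G + 2 * (R - S) - 1 + (b - a)) ≤ R ^ 2 - 4 := by
  have t1 : 0 ≤ (a - 2) * (b - a) := mul_nonneg (by omega) (by omega)
  have t2 : 0 ≤ (R - S) * (R + S - 7) := mul_nonneg (by omega) (by omega)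
  by_cases c : S = R ∧ a = b
  · have := hne c.1 c.2
    obtain ⟨rfl, rfl⟩ := c
    have : 3 * G ≤ S ^ 2 := by simpa using h5
    omega
  · have : 1 ≤ (R - S) + (b - a) := by omega
    nlinarith

/-- Two consecutive residue classes. -/
lemma Setup.caseA {A : Set ℤ} {r : ℕ} {a0 N0 : ℤ} (S : Setup A r a0 N0) (hr : 1000 ≤ r)
    {φ X G : ℤ} (h : Nar A φ X G) (hG : 33 / 100 * ((r : ℝ) + 2) ^ 2 ≤ G) {a1 b1 ma mb : ℤ}
    (ha1 : a1 ∈ A) (hb1 : b1 ∈ A) (e1 : (a1 : ℝ) * φ - X - ma * G = 0)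
    (e2 : (b1 : ℝ) * φ - X - mb * G = 0 + 1) :
    ∃ K : ℕ, 3 * K ≤ r * (r + 4) ∧ ∃ N1 : ℤ, ∀ n, N1 ≤ n → n ∈ K • A := by
  have hr' : (1000 : ℝ) ≤ r := by exact_mod_cast hr
  have hG1 : (r : ℝ) + 2 ≤ G := by nlinarith
  obtain ⟨l, y, w, h', hR, hd, c1, c2, hL, hsat⟩ := S.geo (c := 1) (d := b1 - a1) (k := mb - ma)
    (by linarith) h (by push_cast; linarith) (by push_cast; linarith)
  obtain ⟨m1, i1, f1, f2⟩ := (hL l (-y)).1 ⟨1, 0, by simp, by simp⟩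
  obtain ⟨m2, i2, f3, f4⟩ := (hL (-w) h').1 ⟨0, 1, by simp, by simp⟩
  obtain ⟨L, rfl⟩ : ∃ L : ℤ, l = L := ⟨m1 * G - i1 * X, by push_cast; linarith⟩
  obtain ⟨Y, rfl⟩ : ∃ Y : ℤ, y = Y := ⟨L - i1, by push_cast; linarith⟩
  obtain ⟨W, rfl⟩ : ∃ W : ℤ, w = W := ⟨i2 * X - m2 * G, by push_cast; linarith⟩
  obtain ⟨H, rfl⟩ : ∃ H : ℤ, h' = H := ⟨i2 + W, by push_cast; linarith⟩
  obtain ⟨s0, s1, s2, s3, s4⟩ := hR.shape' hd c1 c2 (by linarith) (by nlinarith)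
  rw [← Int.cast_min] at s0 s1 s2 s3
  rw [← Int.cast_max] at s1 s4
  have hab : min W Y + max W Y = W + Y := min_add_max W Y
  have hle : min W Y ≤ max W Y := min_le_max
  have hdZ : L * H - W * Y = G := by exact_mod_cast hd
  have t0 : L + H - min W Y ≤ r + 2 := by
    have : ((L + H - min W Y : ℤ) : ℝ) ≤ ((r + 2 : ℤ) : ℝ) := by
      rw [Int.cast_sub, Int.cast_add, Int.cast_add]; push_cast at s0 ⊢; linarith
    exact_mod_cast this
  have t1 : 3 * G ≤ (L + H - min W Y) ^ 2 - 3 * (min W Y * (max W Y - min W Y)) := by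
    exact_mod_cast s1
  have t2 : 99 * ((r : ℤ) + 2) ≤ 100 * (L + H - min W Y) := by
    have : (99 : ℝ) * ((r : ℝ) + 2) ≤ 100 * (L + H - (min W Y : ℤ)) := by linarith
    exact_mod_cast this
  have t3 : (r : ℤ) + 2 ≤ 4 * min W Y := by
    have : (r : ℝ) + 2 ≤ 4 * (min W Y : ℤ) := by linarith
    exact_mod_cast this
  have t4 : 100 * max W Y ≤ 43 * ((r : ℤ) + 2) := by
    have : (100 : ℝ) * (max W Y : ℤ) ≤ 43 * ((r : ℝ) + 2) := by linarith
    exact_mod_cast this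
  have t5 : (r : ℤ) + 2 ≤ G := by exact_mod_cast hG1
  have key := arithA (r + 2) (L + H - min W Y) (min W Y) (max W Y) G (by omega) t0 t2 t3 hle t1 (by
    intro q1 q2 q3
    have hWY : W = Y := by omega
    subst hWY
    rw [min_self] at q1 t3
    have q4 : (L + H - 4 * W) ^ 2 + 3 * (L - H) ^ 2 = 0 := by
      rw [← q1, ← hdZ] at q3
      linear_combination (-4) * q3
    have q5 : L - H = 0 := by nlinarith [sq_nonneg (L + H - 4 * W), sq_nonneg (L - H)]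
    have q6 : L + H - 4 * W = 0 := by nlinarith [sq_nonneg (L + H - 4 * W), sq_nonneg (L - H)]
    obtain ⟨p, q, g1, g2⟩ := (hL (-(X : ℝ)) (X + 1)).2 ⟨0, 1, by simp, by simp⟩
    have g3 : -X = p * L - q * W := by exact_mod_cast g1
    have g4 : X + 1 = -(p * W) + q * H := by exact_mod_cast g2
    have g5 : L = 2 * W := by omega
    have g6 : H = 2 * W := by omega
    have g7 : W ∣ 1 := ⟨p + q, by rw [g5] at g3; rw [g6] at g4; linear_combination g3 + g4⟩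
    have := Int.le_of_dvd one_pos g7
    omega)
  obtain ⟨j0, hj0⟩ : ∃ j0 : ℕ, (j0 : ℤ) = r - (L + H - W - Y) + 1 :=
    ⟨_, Int.toNat_of_nonneg (by omega)⟩
  obtain ⟨M, hM⟩ : ∃ M : ℕ, (M : ℤ) = G + 1 + j0 - W - Y := ⟨_, Int.toNat_of_nonneg (by omega)⟩
  have hj0' : (j0 : ℝ) = r - (L + H - W - Y) + 1 := by exact_mod_cast hj0
  have hM' : (M : ℝ) = G + 1 + j0 - W - Y := by exact_mod_cast hM
  have u1 : (1 : ℝ) < W - (j0 - Y) := by
    have : (1 : ℤ) < W - (j0 - Y) := by omega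
    exact_mod_cast this
  have u2 : (j0 : ℝ) < L + H - W - Y := by
    have : (j0 : ℤ) < L + H - W - Y := by omega
    exact_mod_cast this
  refine ⟨j0 + M, ?_, sweep2 (N0 := N0) (α := j0 - Y) (β := W) (by linarith) ha1 hb1
    (S.nonneg _ ha1) (S.nonneg _ hb1) e1 e2 one_pos u1 (by linarith)
    fun n hn m f1 f2 => hsat j0 (by linarith) u2 n hn m f2 (by linarith)⟩
  have : 3 * ((j0 : ℤ) + M) ≤ r * (r + 4) := by
    have : ((r : ℤ) + 2) ^ 2 - 4 = r * (r + 4) := by ring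
    omega
  exact_mod_cast this

end Pool.Agent.Lib.MP_137890_nt
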