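import Mathlib
import Pool.Agent.Lib.MP_137890_nt.Main
import Pool.Agent.Lib.MP_137890_nt.Ex.C

set_option autoImplicit false

open Pointwise

namespace Pool.Agent.Lib.MP_137890_nt

lemma Setup.tight {A : Set ℤ} {r : ℕ} {a0 N0 : ℤ} (S : Setup A r a0 N0) (hr : 1000 ≤ r)
    {φ X G : ℝ} (h : Nar A φ X G) (hG : 33 / 100 * ((r : ℝ) + 2) ^ 2 ≤ G)
    (ht : ∀ η : ℝ, 0 < η → ∃ a ∈ A, ∃ b ∈ A, ∃ ma mb : ℤ, ∃ p s : ℝ, a * φ - X - ma * G = p ∧
      b * φ - X - mb * G = p + s ∧ 1 - η < s ∧ 0 ≤ p ∧ p + s ≤ 1) :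
    ∃ K : ℕ, 3 * K ≤ r * (r + 4) ∧ ∃ N1 : ℤ, ∀ n, N1 ≤ n → n ∈ K • A := by
  by_cases hB : ∃ d k : ℤ, 0 < d * φ - k * G ∧ d * φ - k * G ≤ 1 / 2
  · obtain ⟨d, k, h1, h2⟩ := hB
    refine S.caseB hr h hG h1 h2 fun η hη => ?_
    obtain ⟨a, ha, b, hb, ma, mb, p, s, e1, e2, e3, e4, e5⟩ := ht η hη
    exact ⟨a, ha, b, hb, ma, mb, p, s, e1, e2, e3, by linarith⟩
  · obtain ⟨a, ha, b, hb, ma, mb, p, s, e1, e2, e3, e4, e5⟩ := ht (1 / 4) (by norm_num)
    have hs : 0 < s := by linarith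
    have hsd : ((b - a : ℤ) : ℝ) * φ - ((mb - ma : ℤ) : ℝ) * G = s := by push_cast; linarith
    have mult : ∀ d k : ℤ, ∃ t : ℤ, d * φ - k * G = t * s := by
      intro d k
      set t : ℤ := ⌊(d * φ - k * G) / s⌋ with htdef
      have f1 : (t : ℝ) * s ≤ d * φ - k * G := by
        have := Int.floor_le ((d * φ - k * G) / s)
        rwa [le_div_iff₀ hs] at this
      have f2 : d * φ - k * G < (t + 1) * s := by
        have := Int.lt_floor_add_one ((d * φ - k * G) / s)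
        rwa [div_lt_iff₀ hs] at this
      refine ⟨t, le_antisymm ?_ f1⟩
      by_contra hc
      push Not at hc
      have g1 : ((d - t * (b - a) : ℤ) : ℝ) * φ - ((k - t * (mb - ma) : ℤ) : ℝ) * G
          = d * φ - k * G - t * s := by rw [← hsd]; push_cast; ring
      have g2 : (((t + 1) * (b - a) - d : ℤ) : ℝ) * φ - (((t + 1) * (mb - ma) - k : ℤ) : ℝ) * G
          = (t + 1) * s - (d * φ - k * G) := by rw [← hsd]; push_cast; ring
      by_cases c : d * φ - k * G - t * s ≤ 1 / 2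
      · exact hB ⟨_, _, by rw [g1]; linarith, by rw [g1]; exact c⟩
      · exact hB ⟨_, _, by rw [g2]; linarith, by rw [g2]; linarith⟩
    obtain ⟨φ', hφ⟩ := mult 1 0
    obtain ⟨G', hG'⟩ := mult 0 (-1)
    simp only [Int.cast_one, one_mul, Int.cast_zero, zero_mul, sub_zero, Int.cast_neg, neg_mul,
      zero_sub, neg_neg] at hφ hG'
    have hGG : G ≤ G' := by
      have h0 : 0 < G := lt_of_lt_of_le (by positivity) hG
      have h1 : (0 : ℝ) < G' := by
        by_contra hc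
        push Not at hc
        nlinarith
      nlinarith
    have pos : ∀ (c m : ℤ) (t : ℝ), c * φ - X - m * G - p = t * s →
        (c : ℝ) * φ' - ((a * φ' - ma * G' : ℤ) : ℝ) - m * G' = t := by
      intro c m t e
      apply mul_right_cancel₀ hs.ne'
      push_cast
      rw [hφ, hG'] at e e1
      linear_combination e - e1
    refine S.caseA (φ := φ') (X := a * φ' - ma * G') (G := G') (ma := ma) (mb := mb) hr ?_
      (hG.trans hGG) ha hb (pos a ma 0 (by linarith)) (pos b mb (0 + 1) (by linarith))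
    intro c hc
    obtain ⟨m, f1, f2⟩ := h c hc
    obtain ⟨t, ht⟩ := mult (c - a) (m - ma)
    push_cast at ht
    have e : c * φ - X - m * G - p = t * s := by linarith
    have t1 : (-1 : ℝ) < t := by
      by_contra hc
      push Not at hc
      nlinarith
    have t2 : (t : ℝ) < 2 := by
      by_contra hc
      push Not at hc
      nlinarith
    have t3 : 0 ≤ t := by
      have : (-1 : ℤ) < t := by exact_mod_cast t1
      omega
    have t4 : t ≤ 1 := by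
      have : t < 2 := by exact_mod_cast t2
      omega
    refine ⟨m, ?_, ?_⟩ <;> rw [pos c m t e]
    · exact_mod_cast t3
    · exact_mod_cast t4

/-- A very narrow character gives the exact bound. -/
lemma Setup.narrow {A : Set ℤ} {r : ℕ} {a0 N0 : ℤ} (S : Setup A r a0 N0) (hr : 1000 ≤ r)
    {ψ w0 : ℝ} (hψ : ∀ m : ℤ, ψ ≠ m) (h : Wd A ψ w0) (hw : 33 / 100 * ((r : ℝ) + 2) ^ 2 * w0 ≤ 1) :
    ∃ K : ℕ, 3 * K ≤ r * (r + 4) ∧ ∃ N1 : ℤ, ∀ n, N1 ≤ n → n ∈ K • A := by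
  have hr' : (1000 : ℝ) ≤ r := by exact_mod_cast hr
  have he : w0 < 1 / 4 := by
    by_contra hc
    push Not at hc
    nlinarith
  obtain ⟨a, ha, a', ha', hlt⟩ := S.exists_fl_lt hψ h he
  have hne : (fl a0 ψ '' A).Nonempty := ⟨_, a0, S.mem, rfl⟩
  have hb1 : BddBelow (fl a0 ψ '' A) := by
    refine ⟨-w0, ?_⟩
    rintro _ ⟨b, hb, rfl⟩
    exact (abs_le.mp (h.fl_abs S.mem hb)).1
  have hb2 : BddAbove (fl a0 ψ '' A) := by
    refine ⟨w0, ?_⟩
    rintro _ ⟨b, hb, rfl⟩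
    exact (abs_le.mp (h.fl_abs S.mem hb)).2
  set μ := sInf (fl a0 ψ '' A) with hμ
  set ν := sSup (fl a0 ψ '' A) with hν
  have h1 : ∀ b ∈ A, μ ≤ fl a0 ψ b := fun b hb => csInf_le hb1 ⟨b, hb, rfl⟩
  have h2 : ∀ b ∈ A, fl a0 ψ b ≤ ν := fun b hb => le_csSup hb2 ⟨b, hb, rfl⟩
  have hε : 0 < ν - μ := by linarith [h1 a' ha', h2 a ha]
  have hεw : ν - μ ≤ w0 := by
    have : ν ≤ μ + w0 := by
      refine csSup_le hne ?_
      rintro _ ⟨b, hb, rfl⟩
      have : fl a0 ψ b - w0 ≤ μ := by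
        refine le_csInf hne ?_
        rintro _ ⟨c, hc, rfl⟩
        have := h b hb c hc
        rw [h.fl_sub he S.mem hb hc] at this
        linarith [(abs_le.mp this).2]
      linarith
    linarith
  set ε := ν - μ with hεdef
  have pos : ∀ b : ℤ, (b : ℝ) * (ψ / ε) - (a0 * ψ + μ) / ε -
      (round (((b : ℝ) - a0) * ψ) : ℤ) * (1 / ε) = (fl a0 ψ b - μ) / ε := by
    intro b
    unfold fl
    field_simp
    ring
  refine S.tight (φ := ψ / ε) (X := (a0 * ψ + μ) / ε) (G := 1 / ε) hr ?_ ?_ ?_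
  · intro b hb
    refine ⟨round (((b : ℝ) - a0) * ψ), ?_, ?_⟩ <;> rw [pos b]
    · exact div_nonneg (by linarith [h1 b hb]) hε.le
    · rw [div_le_one hε]; linarith [h2 b hb]
  · rw [le_div_iff₀ hε]
    have : 33 / 100 * ((r : ℝ) + 2) ^ 2 * ε ≤ 33 / 100 * ((r : ℝ) + 2) ^ 2 * w0 :=
      mul_le_mul_of_nonneg_left hεw (by positivity)
    linarith
  · intro η hη
    have hδ : 0 < η * ε / 2 := by positivity
    obtain ⟨_, ⟨b, hb, rfl⟩, g1⟩ := exists_lt_of_csInf_lt hne (show μ < μ + η * ε / 2 by linarith)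
    obtain ⟨_, ⟨c, hc, rfl⟩, g2⟩ := exists_lt_of_lt_csSup hne (show ν - η * ε / 2 < ν by linarith)
    refine ⟨b, hb, c, hc, _, round (((c : ℝ) - a0) * ψ), _, (fl a0 ψ c - fl a0 ψ b) / ε, pos b,
      ?_, ?_, ?_, ?_⟩
    · rw [pos c]; ring
    · rw [lt_div_iff₀ hε]; linarith
    · exact div_nonneg (by linarith [h1 b hb]) hε.le
    · rw [← add_div, div_le_one hε]; linarith [h2 c hc]

end Pool.Agent.Lib.MP_137890_nt
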