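import Mathlib
import Pool.Agent.Lib.MP_137890_nt.Ex.D

set_option autoImplicit false

open Pointwise Finset

namespace Pool.Agent.Lib.MP_137890_nt

/-- The core of the upper bound when no character is very narrow. -/
theorem Setup.core2 {A : Set ℤ} {r : ℕ} {a0 N0 : ℤ} (S : Setup A r a0 N0) (hr : 2 ≤ r)
    {τ ε ε' : ℝ} (hτ : 0 < τ) {j0 J m0 : ℕ} (hJ : 0 < J) (hth : Thick τ (j0 • A))
    (hε : 20 / (τ ^ 2 * J) ≤ ε) (hm0 : r + 1 < m0 * m0) (hε2 : ((r : ℝ) + 4) * ε < 1 / m0)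
    (hεε : ε ≤ ε') (hC : ε * ((r : ℝ) + 1) ^ 2 * ε' ≤ τ ^ 2 / 200) {B : ℝ} (hB0 : 0 < B)
    (hB : B ≤ ((r : ℝ) + 1) ^ 2) (hno : ∀ ψ : ℝ, (∀ k : ℤ, ψ ≠ k) → ¬ Wd A ψ (1 / B)) :
    ∃ K : ℕ, (K : ℝ) ≤ 3 * (j0 + J) + r + (B + 1) ∧
      ∃ N1 : ℤ, ∀ n, N1 ≤ n → n ∈ K • A := by
  have hJ' : (0 : ℝ) < J := by exact_mod_cast hJ
  have hε0 : 0 < ε := lt_of_lt_of_le (by positivity) hε
  have hr' : (2 : ℝ) ≤ r := by exact_mod_cast hr
  have h0 : (a0.toNat : ℤ) = a0 := Int.toNat_of_nonneg (S.nonneg a0 S.mem)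
  have ha0 := S.nonneg a0 S.mem
  by_cases hex : ∃ α : ℝ, (∀ k : ℤ, α ≠ k) ∧ Wd A α ε
  · set E : Set ℝ := {e | ∃ α : ℝ, (∀ k : ℤ, α ≠ k) ∧ Wd A α e} with hE
    have hlow : ∀ e ∈ E, 3 / ((r : ℝ) + 2) ^ 2 ≤ e := by
      rintro e ⟨α, h1, h2⟩
      rw [div_le_iff₀ (by positivity), mul_comm]
      exact S.width_lower hr h1 h2
    have hbdd : BddBelow E := ⟨_, hlow⟩
    have hinf : 0 < sInf E := lt_of_lt_of_le (by positivity) (le_csInf ⟨ε, hex⟩ hlow)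
    obtain ⟨ε1, hε1E, hε1a, hε1b⟩ : ∃ ε1 ∈ E, ε1 < 2 * sInf E ∧ ε1 ≤ ε := by
      by_cases h : ε < 2 * sInf E
      · exact ⟨ε, hex, h, le_rfl⟩
      · obtain ⟨e, he, he2⟩ := exists_lt_of_csInf_lt ⟨ε, hex⟩ (by linarith : sInf E < 2 * sInf E)
        exact ⟨e, he, he2, by linarith⟩
    obtain ⟨ψ, hψ0, hψ1⟩ := hε1E
    have hmin : ∀ φ : ℝ, (∀ k : ℤ, φ ≠ k) → ¬ Wd A φ (ε1 / 2) := by
      intro φ h1 h2
      have := csInf_le hbdd (show ε1 / 2 ∈ E from ⟨φ, h1, h2⟩)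
      linarith
    obtain ⟨b, hb, b', hb', hbb⟩ : ∃ b ∈ A, ∃ b' ∈ A, 1 / B < nrm (((b : ℝ) - b') * ψ) := by
      by_contra hc
      push Not at hc
      exact hno ψ hψ0 hc
    set s := nrm (((b : ℝ) - b') * ψ) with hs
    have hs0 : 0 < s := lt_trans (by positivity) hbb
    have hsε : s ≤ ε := (hψ1 b hb b' hb').trans hε1b
    obtain ⟨a, ha, a', ha', k, hk⟩ : ∃ a ∈ A, ∃ a' ∈ A, ∃ k : ℤ, ((a : ℝ) - a') * ψ = s + k := by
      rcases abs_choice (((b : ℝ) - b') * ψ - round (((b : ℝ) - b') * ψ)) with h | h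
      · refine ⟨b, hb, b', hb', round (((b : ℝ) - b') * ψ), ?_⟩
        rw [hs]; unfold nrm; rw [h]; ring
      · refine ⟨b', hb', b, hb, -round (((b : ℝ) - b') * ψ), ?_⟩
        rw [hs]; unfold nrm; rw [h]; push_cast; ring
    have hinv : 1 / s ≤ B := by
      rw [div_lt_iff₀ hB0] at hbb
      rw [div_le_iff₀ hs0]
      linarith
    have hstr : ∀ χ : ℝ, Wd A χ ε → ∃ t k : ℤ, χ = t * ψ + k ∧ |(t : ℝ)| ≤ ε * ((r : ℝ) + 1) ^ 2 := by
      intro χ hχ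
      obtain ⟨t, k, h1, h2⟩ := S.multiple hm0 hε2 hψ0 hψ1 hε1b hmin hχ
      refine ⟨t, k, h1, ?_⟩
      have h3 := h2 b hb b' hb'
      rw [← hs, ← le_div_iff₀ hs0] at h3
      refine h3.trans ?_
      rw [div_eq_mul_one_div]
      exact mul_le_mul_of_nonneg_left (hinv.trans hB) hε0.le
    set m : ℕ := ⌈1 / s⌉₊ with hm
    have hm1 : 1 ≤ m * s := by
      have := Nat.le_ceil (1 / s)
      rwa [div_le_iff₀ hs0] at this
    have hm2 : (m : ℝ) ≤ B + 1 := by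
      have := Nat.ceil_lt_add_one (a := 1 / s) (by positivity)
      linarith
    obtain ⟨i, hi, x, hx⟩ := bohr_piece S.mem S.nonneg hτ hJ hth hε hstr hC
      (r * a0.toNat + m * (a - a').natAbs)
    refine ⟨3 * (j0 + i) + r + m, ?_, S.sweep ha ha' hs0 (hsε.trans hεε) hk hm1 hx⟩
    have : (i : ℝ) ≤ J := by exact_mod_cast hi
    push_cast
    linarith
  · have hstr : ∀ χ : ℝ, Wd A χ ε →
        ∃ t k : ℤ, χ = t * (0 : ℝ) + k ∧ |(t : ℝ)| ≤ ε * ((r : ℝ) + 1) ^ 2 := by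
      intro χ hχ
      by_contra hc
      refine hex ⟨χ, fun k hk => hc ⟨0, k, by simpa using hk, ?_⟩, hχ⟩
      simp only [Int.cast_zero, abs_zero]
      positivity
    obtain ⟨i, hi, x, hx⟩ := bohr_piece S.mem S.nonneg hτ hJ hth hε hstr hC (r * a0.toNat)
    refine ⟨3 * (j0 + i) + r, ?_, N0 + x, fun n hn => ?_⟩
    · have : (i : ℝ) ≤ J := by exact_mod_cast hi
      push_cast
      linarith
    · obtain ⟨i0, hi0, hb⟩ := S.exists_near (n - x) (by linarith)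
      have h1 := hx (-(i0 * a0)) (by
        rw [abs_neg, abs_of_nonneg (mul_nonneg (Int.natCast_nonneg _) ha0)]
        push_cast
        rw [h0]
        exact mul_le_mul_of_nonneg_right (by exact_mod_cast hi0) ha0) (by
        have := nrm_int 0
        simp only [Int.cast_zero] at this
        rw [mul_zero, this]
        linarith)
      convert add_mem_add_nsmul h1 hb using 1
      ring

/-- The upper bound when no character is very narrow. -/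
theorem upper_bound2 {τ : ℝ} (hτ : 0 < τ) (hτ3 : τ ≤ 1 / 3) : ∃ r0 : ℕ, ∀ r : ℕ, r0 ≤ r →
    ∀ (A : Set ℤ) (a0 N0 : ℤ), Setup A r a0 N0 → ∀ B : ℝ, 0 < B → B ≤ ((r : ℝ) + 1) ^ 2 →
      (∀ ψ : ℝ, (∀ k : ℤ, ψ ≠ k) → ¬ Wd A ψ (1 / B)) →
      ∃ K : ℕ, (K : ℝ) ≤ B + 100 * τ * (r : ℝ) ^ 2 ∧ ∃ N1 : ℤ, ∀ n, N1 ≤ n → n ∈ K • A := by
  obtain ⟨r0, hr0⟩ := exists_nat_ge (80000 / τ ^ 8)
  refine ⟨r0, fun r hr A a0 N0 S B hB0 hB hno => ?_⟩
  have hrr : 80000 / τ ^ 8 ≤ r := hr0.trans (by exact_mod_cast hr)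
  rw [div_le_iff₀ (by positivity)] at hrr
  have hτ1 : τ ≤ 1 := by linarith
  have hp : ∀ i j : ℕ, i ≤ j → τ ^ j ≤ τ ^ i := fun i j h => pow_le_pow_of_le_one hτ.le hτ1 h
  have hrpos : (0 : ℝ) ≤ r := Nat.cast_nonneg r
  have hrp : ∀ i : ℕ, i ≤ 8 → 80000 ≤ r * τ ^ i :=
    fun i hi => hrr.trans (mul_le_mul_of_nonneg_left (hp i 8 hi) hrpos)
  have hr1 : (80000 : ℝ) ≤ r := by simpa using hrp 0 (by norm_num)
  have hr2 : 2 ≤ r := by
    have : (2 : ℝ) ≤ r := by linarith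
    exact_mod_cast this
  set q : ℝ := (r : ℝ) + 1 with hq
  have hq0 : 0 < q := by positivity
  have hqr : (r : ℝ) ≤ q := by linarith
  set U : ℕ := ⌈3 * τ * q⌉₊ with hU
  have hU1 : 3 * τ * q ≤ U := Nat.le_ceil _
  have hU2 : (U : ℝ) ≤ 3 * τ * q + 1 := (Nat.ceil_lt_add_one (by positivity)).le
  have hU3 : 1 ≤ U := Nat.one_le_iff_ne_zero.mpr (Nat.ceil_pos.mpr (by positivity)).ne'
  have hU4 : U ≤ r + 1 := by
    rw [hU, Nat.ceil_le]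
    push_cast
    nlinarith
  have hth : Thick τ ((10 * (r + 1) * U) • A) := by
    refine (S.thick_growth U hU3 hU4).mono ?_ 0 (fun s hs => by simpa using hs)
    rw [le_div_iff₀ (by positivity)]
    linarith
  set J : ℕ := ⌈τ * q ^ 2⌉₊ with hJ
  have hJ1 : τ * q ^ 2 ≤ J := Nat.le_ceil _
  have hJ2 : (J : ℝ) ≤ τ * q ^ 2 + 1 := (Nat.ceil_lt_add_one (by positivity)).le
  have hJ3 : 0 < J := Nat.ceil_pos.mpr (by positivity)
  set m0 : ℕ := ⌈τ ^ 3 / 200 * q⌉₊ with hm0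
  have hm1 : τ ^ 3 / 200 * q ≤ m0 := Nat.le_ceil _
  have hm2 : (m0 : ℝ) < τ ^ 3 / 200 * q + 1 := Nat.ceil_lt_add_one (by positivity)
  have hτ3q : 80000 ≤ q * τ ^ 3 :=
    (hrp 3 (by norm_num)).trans (mul_le_mul_of_nonneg_right hqr (by positivity))
  have hτ6q : 80000 ≤ q * τ ^ 6 :=
    (hrp 6 (by norm_num)).trans (mul_le_mul_of_nonneg_right hqr (by positivity))
  have hτ8q : 80000 ≤ q * τ ^ 8 :=
    (hrp 8 (by norm_num)).trans (mul_le_mul_of_nonneg_right hqr (by positivity))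
  have hm0pos : (0 : ℝ) < m0 := lt_of_lt_of_le (by positivity) hm1
  have hm3 : r + 1 < m0 * m0 := by
    have e1 : (τ ^ 3 / 200 * q) * (τ ^ 3 / 200 * q) ≤ (m0 : ℝ) * m0 :=
      mul_le_mul hm1 hm1 (by positivity) hm0pos.le
    have e2 : (τ ^ 3 / 200 * q) * (τ ^ 3 / 200 * q) = (q * τ ^ 6) / 40000 * q := by ring
    have e3 : 2 * q ≤ (q * τ ^ 6) / 40000 * q :=
      mul_le_mul_of_nonneg_right (by linarith) hq0.le
    have : ((r + 1 : ℕ) : ℝ) < ((m0 * m0 : ℕ) : ℝ) := by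
      push_cast
      linarith
    exact_mod_cast this
  obtain ⟨K, hK, hcov⟩ := S.core2 hr2 hτ (ε := 20 / (τ ^ 3 * q ^ 2)) (ε' := τ ^ 5 / 4000)
    (m0 := m0) hJ3 hth (by
      refine div_le_div_of_nonneg_left (by norm_num) (by positivity) ?_
      have := mul_le_mul_of_nonneg_left hJ1 (by positivity : 0 ≤ τ ^ 2)
      nlinarith) hm3 (by
      rw [lt_div_iff₀ hm0pos]
      have e1 : (m0 : ℝ) ≤ τ ^ 3 / 100 * q := by nlinarith
      have e2 : ((r : ℝ) + 4) ≤ 4 * q := by linarith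
      have e3 : ((r : ℝ) + 4) * (20 / (τ ^ 3 * q ^ 2)) * m0
          ≤ 4 * q * (20 / (τ ^ 3 * q ^ 2)) * (τ ^ 3 / 100 * q) :=
        mul_le_mul (mul_le_mul_of_nonneg_right e2 (by positivity)) e1 hm0pos.le (by positivity)
      have e4 : 4 * q * (20 / (τ ^ 3 * q ^ 2)) * (τ ^ 3 / 100 * q) = 4 / 5 := by
        field_simp; norm_num
      linarith) (by
      rw [div_le_div_iff₀ (by positivity) (by norm_num)]
      have e1 : q * τ ^ 8 ≤ q * τ ^ 8 * q := le_mul_of_one_le_right (by positivity) (by linarith)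
      nlinarith) (by
      refine le_of_eq ?_
      rw [← hq]
      field_simp
      norm_num) hB0 hB hno
  refine ⟨K, hK.trans ?_, hcov⟩
  have e1 : q * U ≤ q * (3 * τ * q + 1) := mul_le_mul_of_nonneg_left hU2 hq0.le
  have e2 : 80000 ≤ r * τ := by simpa using hrp 1 (by norm_num)
  have e3 : 80000 * r ≤ r * τ * r := mul_le_mul_of_nonneg_right e2 hrpos
  have e4 : τ * r ≤ 1 / 3 * r := mul_le_mul_of_nonneg_right hτ3 hrpos
  push_cast
  have e5 : τ * q ^ 2 = τ * r ^ 2 + 2 * (τ * r) + τ := by rw [hq]; ring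
  nlinarith

/-- The exact upper bound for large `r`. -/
theorem upper_exact : ∃ r0 : ℕ, ∀ r : ℕ, r0 ≤ r → ∀ (A : Set ℤ) (a0 N0 : ℤ), Setup A r a0 N0 →
    ∃ K : ℕ, 3 * K ≤ r * (r + 4) ∧ ∃ N1 : ℤ, ∀ n, N1 ≤ n → n ∈ K • A := by
  obtain ⟨r0, h⟩ := upper_bound2 (τ := 1 / 100000) (by norm_num) (by norm_num)
  refine ⟨max r0 10000, fun r hr A a0 N0 S => ?_⟩
  have h1 : 10000 ≤ r := (le_max_right _ _).trans hr
  have h2 : (10000 : ℝ) ≤ r := by exact_mod_cast h1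
  have hB0 : 0 < 33 / 100 * ((r : ℝ) + 2) ^ 2 := by positivity
  by_cases hc : ∃ ψ : ℝ, (∀ k : ℤ, ψ ≠ k) ∧ Wd A ψ (1 / (33 / 100 * ((r : ℝ) + 2) ^ 2))
  · obtain ⟨ψ, c1, c2⟩ := hc
    exact S.narrow (by omega) c1 c2 (mul_one_div_cancel hB0.ne').le
  · obtain ⟨K, hK, hcov⟩ := h r ((le_max_left _ _).trans hr) A a0 N0 S _ hB0 (by nlinarith)
      fun ψ c1 c2 => hc ⟨ψ, c1, c2⟩
    refine ⟨K, ?_, hcov⟩
    have : (3 : ℝ) * K ≤ r * (r + 4) := by nlinarith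
    exact_mod_cast this

end Pool.Agent.Lib.MP_137890_nt
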