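import Mathlib
import Pool.Agent.Lib.MP_137890_nt.Lower

set_option autoImplicit false

open Pointwise

namespace Pool.Agent.Lib.MP_137890_nt

lemma lshape (d W x g : ℕ) (hd : 1 ≤ d) (hx : x = d + 2 * W) (hg : g = d * x + d + W) :
    ∀ s u v : ℕ, u + v ≤ s → ∃ u' v' c : ℕ, u' + v' + 1 ≤ 2 * d + W ∧
      (u + v) * x + u = (u' + v') * x + u' + c * g := by
  intro s
  induction s with
  | zero =>
    intro u v h
    exact ⟨u, v, 0, by omega, by simp⟩
  | succ s ih =>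
    intro u v h
    by_cases h1 : d ≤ u ∧ d + 1 ≤ v
    · obtain ⟨u, rfl⟩ := Nat.exists_eq_add_of_le h1.1
      obtain ⟨v, rfl⟩ := Nat.exists_eq_add_of_le h1.2
      obtain ⟨u', v', c, f1, f2⟩ := ih u v (by omega)
      refine ⟨u', v', c + 2, f1, ?_⟩
      subst hx
      zify at f2 hg ⊢
      linear_combination f2 - 2 * hg
    · by_cases h2 : d + W ≤ u
      · obtain ⟨u, rfl⟩ := Nat.exists_eq_add_of_le h2
        obtain ⟨u', v', c, f1, f2⟩ := ih u (v + W) (by omega)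
        refine ⟨u', v', c + 1, f1, ?_⟩
        zify at f2 hg ⊢
        linear_combination f2 - hg
      · by_cases h3 : d + W + 1 ≤ v
        · obtain ⟨v, rfl⟩ := Nat.exists_eq_add_of_le h3
          obtain ⟨u', v', c, f1, f2⟩ := ih (u + W) v (by omega)
          refine ⟨u', v', c + 1, f1, ?_⟩
          subst hx
          zify at f2 hg ⊢
          linear_combination f2 - hg
        · exact ⟨u, v, 0, by omega, by simp⟩

lemma twoRes_basis2 (d W x g : ℕ) (hd : 1 ≤ d) (hW : 2 ≤ W) (hx : x = d + 2 * W)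
    (hg : g = d * x + d + W) :
    ∃ N : ℕ, ∀ n, N ≤ n → ∃ j, j + 1 ≤ 2 * d + W ∧ n ∈ j • twoRes g x := by
  refine ⟨(2 * d + W) * x + (2 * d + W) + 2 * g, fun n hn => ?_⟩
  obtain ⟨g', hg'⟩ : ∃ g', g = g' + 1 := ⟨g - 1, by omega⟩
  obtain ⟨u, v, c, f1, f2⟩ := lshape d W x g hd hx hg _ n (g' * n) le_rfl
  have f3 : n + n * x * g = (u + v) * x + u + c * g := by rw [← f2, hg']; ring
  have f4 : (u + v) * x ≤ (2 * d + W) * x := Nat.mul_le_mul_right _ (by omega)
  have f5 : (n * x + 2) * g ≤ c * g := by rw [add_mul]; omega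
  have f6 : n * x + 2 ≤ c := Nat.le_of_mul_le_mul_right f5 (by omega)
  obtain ⟨e, rfl⟩ := Nat.exists_eq_add_of_le f6
  have f7 : n = (u + v) * x + u + (2 + e) * g := by
    have : (n * x + 2 + e) * g = n * x * g + (2 + e) * g := by ring
    omega
  rcases Nat.eq_zero_or_pos (u + v) with h0 | h0
  · refine ⟨2 * d + 1, by omega, ?_⟩
    have := mem_twoRes (g := g) (x := x) (2 * d + 1) d e (by omega) (by omega)
    convert this using 1
    have hu : u = 0 := by omega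
    rw [f7, h0, hu, hg, hx]
    ring
  · refine ⟨u + v, f1, ?_⟩
    rw [f7]
    exact mem_twoRes (u + v) u (2 + e) h0 (by omega)

/-- A two-residue basis of order `r` modulo `⌊r (r + 4) / 3⌋ + 1`. -/
lemma twoRes_sharp (r : ℕ) (hr : 7 ≤ r) : ∃ x N : ℕ, ∀ n, N ≤ n →
    ∃ j, j ≤ r ∧ n ∈ j • twoRes (r * (r + 4) / 3 + 1) x := by
  obtain ⟨d, W, hd, hW, h1, h2⟩ : ∃ d W : ℕ, 1 ≤ d ∧ 2 ≤ W ∧ 2 * d + W = r + 1 ∧
      r * (r + 4) / 3 + 1 = d * (d + 2 * W) + d + W := by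
    obtain ⟨m, h | h | h⟩ : ∃ m, r = 3 * m ∨ r = 3 * m + 1 ∨ r = 3 * m + 2 := ⟨r / 3, by omega⟩
    · refine ⟨m, m + 1, by omega, by omega, by omega, ?_⟩
      have : r * (r + 4) = 3 * (3 * (m * m) + 4 * m) := by rw [h]; ring
      have e : m * (m + 2 * (m + 1)) = 3 * (m * m) + 2 * m := by ring
      omega
    · refine ⟨m + 1, m, by omega, by omega, by omega, ?_⟩
      have : r * (r + 4) = 3 * (3 * (m * m) + 6 * m + 1) + 2 := by rw [h]; ring
      have e : (m + 1) * (m + 1 + 2 * m) = 3 * (m * m) + 4 * m + 1 := by ring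
      omega
    · refine ⟨m + 1, m + 1, by omega, by omega, by omega, ?_⟩
      have : r * (r + 4) = 3 * (3 * (m * m) + 8 * m + 4) := by rw [h]; ring
      have e : (m + 1) * (m + 1 + 2 * (m + 1)) = 3 * (m * m) + 6 * m + 3 := by ring
      omega
  obtain ⟨N, hN⟩ := twoRes_basis2 d W _ _ hd hW rfl h2
  refine ⟨d + 2 * W, N, fun n hn => ?_⟩
  obtain ⟨j, hj, h⟩ := hN n hn
  exact ⟨j, by omega, h⟩

end Pool.Agent.Lib.MP_137890_nt
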